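import Pool.Agent.E8helper48.Core.Final

/-!
# Core decompositions of compacta on the torus are not computed by cutting the torus to a square

The surface is the torus `(ℝ / ℤ)²`, the polygon is the unit square with opposite sides identified, and
`τ` is the projection.  There is a compactum `K` on the torus for which the decomposition `D_K^τ`,
computed from the core decomposition of the lift `L = τ⁻¹ (K)`, differs from the core decomposition of
`K`.

The compactum is `K = {(1 / 4 + x / 2, f x + t) : 0 ≤ x ≤ 1, t ∈ {0} ∪ {1 / (n + 5)}}` modulo `ℤ²`,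
where `f x = ± dist (x, C)` for the Cantor set `C`, the sign being the parity of the level of the gap
which contains `x`.  The arcs `t = 1 / (n + 5)` converge to the arc `t = 0`, so every Peano
decomposition of `K` collapses this arc to a point.  The side `y = 0` of the square cuts the arc along
`C`; in `L` only the single closed arches over the closures of the gaps are limits of large
components, different arches have no common end, and the decomposition of `K` into the closed arches
of the arc `t = 0` and single points is upper semicontinuous and is `D_K^τ`.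
-/

set_option autoImplicit false

namespace Pool.Agent.Results.MP_b18375_gt.TorusCounterexampleH48

open Set Topology

/-- A metric space is a Peano compactum if it is compact, its components of diameter `> ε` are
finitely many for every `ε > 0` (that is, the nondegenerate components form a null sequence), and
every nondegenerate component is locally connected. -/
def PeanoCompactum (Y : Type) [MetricSpace Y] : Prop :=
  CompactSpace Y ∧
  (∀ ε : ℝ, 0 < ε →
    {C : Set Y | (∃ y, C = connectedComponent y) ∧ ε < Metric.diam C}.Finite) ∧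
  ∀ y : Y, (connectedComponent y).Nontrivial → LocallyConnectedSpace (connectedComponent y)

/-- The partition of `X` into the classes of `D` is an upper semicontinuous decomposition: the
classes are closed, and every open set `U` which contains the class of `x` contains an open set `V`
which contains the class of `x` and is a union of classes. -/
def USC {X : Type} [TopologicalSpace X] (D : Setoid X) : Prop :=
  (∀ x, IsClosed {y | D x y}) ∧
  ∀ (x : X) (U : Set X), IsOpen U → {y | D x y} ⊆ U →
    ∃ V : Set X, IsOpen V ∧ {y | D x y} ⊆ V ∧ V ⊆ U ∧ ∀ y ∈ V, ∀ z, D y z → z ∈ V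

/-- An upper semicontinuous decomposition into subcontinua. -/
def IntoContinua {X : Type} [TopologicalSpace X] (D : Setoid X) : Prop :=
  USC D ∧ ∀ x, IsConnected {y | D x y}

/-- A Peano decomposition: a usc decomposition into subcontinua whose quotient space is a Peano
compactum (for a metric which induces the quotient topology). -/
def PeanoDecomposition {X : Type} [TopologicalSpace X] (D : Setoid X) : Prop :=
  IntoContinua D ∧ ∃ m : MetricSpace (Quotient D),
    m.toUniformSpace.toTopologicalSpace = (inferInstance : TopologicalSpace (Quotient D)) ∧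
      @PeanoCompactum (Quotient D) m

/-- The core decomposition: the Peano decomposition which refines every Peano decomposition.
(`D ≤ E` means that `D` refines `E`.) -/
def IsCore {X : Type} [TopologicalSpace X] (D : Setoid X) : Prop :=
  PeanoDecomposition D ∧ ∀ E : Setoid X, PeanoDecomposition E → D ≤ E

/-- The torus. -/
abbrev Torus : Type := AddCircle (1 : ℝ) × AddCircle (1 : ℝ)

/-- The polygon: the unit square in the complex plane. -/
abbrev Square : Type := {z : ℂ // z.re ∈ Icc (0 : ℝ) 1 ∧ z.im ∈ Icc (0 : ℝ) 1}

/-- The projection `τ` of the square onto the torus. -/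
def tau (z : Square) : Torus := ((z.1.re : AddCircle (1 : ℝ)), (z.1.im : AddCircle (1 : ℝ)))

/-- `D` is the decomposition `D_K^τ`: the finest usc decomposition of `K` into subcontinua which
splits none of the sets `τ(δ)`, `δ` a class of the decomposition `DL` of the lift `τ⁻¹ (K)`. -/
def IsTauDecomposition (K : Set Torus) (DL : Setoid ↥(tau ⁻¹' K)) (D : Setoid ↥K) : Prop :=
  IsLeast {E : Setoid ↥K | IntoContinua E ∧
    ∀ a b : ↥(tau ⁻¹' K), DL a b → E ⟨tau a.1, a.2⟩ ⟨tau b.1, b.2⟩} D

/-- `τ` is a quotient map, and it identifies exactly the opposite sides of the square: two points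
have the same image if and only if their real parts are equal or are the two end points `0`, `1`,
and their imaginary parts are equal or are the two end points `0`, `1`. -/
theorem tau_spec : IsQuotientMap tau ∧ ∀ z w : Square, tau z = tau w ↔
    (z.1.re = w.1.re ∨ (z.1.re = 0 ∧ w.1.re = 1) ∨ (z.1.re = 1 ∧ w.1.re = 0)) ∧
    (z.1.im = w.1.im ∨ (z.1.im = 0 ∧ w.1.im = 1) ∨ (z.1.im = 1 ∧ w.1.im = 0)) := by
  have hsurj : ∀ a : AddCircle (1 : ℝ), ∃ r ∈ Icc (0 : ℝ) 1, (r : AddCircle (1 : ℝ)) = a := by
    intro a
    have h1 := AddCircle.coe_image_Icc_eq (1 : ℝ) 0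
    have h2 : a ∈ ((↑) : ℝ → AddCircle (1 : ℝ)) '' Icc (0 : ℝ) (0 + 1) := by
      rw [h1]
      trivial
    rw [zero_add] at h2
    exact h2
  have key : ∀ a ∈ Icc (0 : ℝ) 1, ∀ b ∈ Icc (0 : ℝ) 1,
      ((a : AddCircle (1 : ℝ)) = b ↔ a = b ∨ (a = 0 ∧ b = 1) ∨ (a = 1 ∧ b = 0)) := by
    intro a ha b hb
    constructor
    · intro h
      obtain ⟨n, hn⟩ := Pool.Agent.E8helper48.Core.coe_eq h
      have h1 : (-2 : ℝ) < n := by linarith [ha.1, ha.2, hb.1, hb.2]
      have h2 : (n : ℝ) < 2 := by linarith [ha.1, ha.2, hb.1, hb.2]
      have h3 : -2 < n := by exact_mod_cast h1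
      have h4 : n < 2 := by exact_mod_cast h2
      have h5 : n = 0 ∨ n = 1 ∨ n = -1 := by omega
      rcases h5 with rfl | rfl | rfl
      · left
        simp at hn
        linarith
      · right
        right
        simp at hn
        constructor <;> linarith [ha.1, ha.2, hb.1, hb.2]
      · right
        left
        simp at hn
        constructor <;> linarith [ha.1, ha.2, hb.1, hb.2]
    · have h01 : ((0 : ℝ) : AddCircle (1 : ℝ)) = ((1 : ℝ) : AddCircle (1 : ℝ)) := by
        rw [AddCircle.coe_period]
        rfl
      rintro (rfl | ⟨rfl, rfl⟩ | ⟨rfl, rfl⟩)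
      · rfl
      · exact h01
      · exact h01.symm
  refine ⟨?_, fun z w => ?_⟩
  · have hc : Continuous tau := Pool.Agent.E8helper48.Core.tau_cont
    refine hc.isClosedMap.isQuotientMap hc ?_
    rintro ⟨a, b⟩
    obtain ⟨r, hr, rfl⟩ := hsurj a
    obtain ⟨s, hs, rfl⟩ := hsurj b
    exact ⟨⟨⟨r, s⟩, hr, hs⟩, rfl⟩
  · rw [← key _ z.2.1 _ w.2.1, ← key _ z.2.2 _ w.2.2]
    exact Prod.ext_iff

/-- **`D_K^PC ≠ D_K^τ` for a compactum `K` on the torus.**  The projection `τ` of the unit square onto
the torus is the quotient map which identifies the opposite sides, and there are a compactum `K` on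
the torus, the core decomposition `DL` of `L = τ⁻¹ (K)`, the core decomposition `DK` of `K` and the
decomposition `Dτ = D_K^τ` with `Dτ ≠ DK`. -/
theorem result : (IsQuotientMap tau ∧ ∀ z w : Square, tau z = tau w ↔
      (z.1.re = w.1.re ∨ (z.1.re = 0 ∧ w.1.re = 1) ∨ (z.1.re = 1 ∧ w.1.re = 0)) ∧
      (z.1.im = w.1.im ∨ (z.1.im = 0 ∧ w.1.im = 1) ∨ (z.1.im = 1 ∧ w.1.im = 0))) ∧
    ∃ K : Set Torus, IsCompact K ∧
      ∃ (DL : Setoid ↥(tau ⁻¹' K)) (DK Dτ : Setoid ↥K), IsCore DL ∧ IsCore DK ∧
        IsTauDecomposition K DL Dτ ∧ Dτ ≠ DK :=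
  ⟨tau_spec, Pool.Agent.E8helper48.Core.main⟩

end Pool.Agent.Results.MP_b18375_gt.TorusCounterexampleH48
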